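import Pool.Agent.BEJ.Stmts

set_option autoImplicit false

/-! # Squad BEJ, row NRX: zeros without resonances -/

namespace Pool.Agent.BEJ.H36

open Set Filter Topology
open Pool.Agent.BED

/-- the arithmetic core -/
theorem nrx_core (C0 C x : ℝ) (k n : ℕ) (m e : ℤ) (hC0 : 0 < C0) (hC : 1 ≤ C)
    (hx1 : 1 ≤ x) (hA : 18 * C0 < x ^ 2) (hB : 4 * C0 * C ≤ x ^ 2)
    (hD : 8 * (16 * C0 * C + (C / (4 * Real.pi) + 1) * (Real.pi / 2 + 4 * Real.pi * C0)) ≤ x)
    (he : |4 * Real.pi ^ 2 * k - Real.pi ^ 2 - 2 * e| ≤ 1 / (8 * (C / (4 * Real.pi) + 1)))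
    (h1 : |x + Real.pi / 4 - 1 / (8 * x) - Real.pi * k| ≤ C0 / x ^ 3)
    (hn : Odd n) (hn3 : 3 ≤ n) (hnx : (n : ℝ) ≤ C * x)
    (h2 : |n * x + Real.pi / 4 - 1 / (8 * (n * x)) - Real.pi * m| ≤ C0 / (n * x) ^ 3) : False := by
  have hpi := Real.pi_gt_three
  have hpi4 := Real.pi_le_four
  have hx : 0 < x := by linarith
  have hnr : (3 : ℝ) ≤ n := by exact_mod_cast hn3
  have hn0 : (0 : ℝ) < n := by linarith
  obtain ⟨J, hJ⟩ : ∃ J : ℝ, J = C / (4 * Real.pi) + 1 := ⟨_, rfl⟩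
  rw [← hJ] at hD he
  have hJ1 : 1 ≤ J := by
    rw [hJ]
    have : 0 ≤ C / (4 * Real.pi) := by positivity
    linarith
  obtain ⟨a, ha⟩ : ∃ a : ℝ, a = x + Real.pi / 4 - 1 / (8 * x) - Real.pi * k := ⟨_, rfl⟩
  obtain ⟨b, hb⟩ : ∃ b : ℝ, b = n * x + Real.pi / 4 - 1 / (8 * (n * x)) - Real.pi * m := ⟨_, rfl⟩
  rw [← ha] at h1
  rw [← hb] at h2
  have hx3 : 0 < x ^ 3 := by positivity
  have h2' : |b| ≤ C0 / x ^ 3 := by
    refine h2.trans (div_le_div_of_nonneg_left hC0.le hx3 ?_)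
    refine pow_le_pow_left₀ hx.le ?_ 3
    nlinarith
  -- the difference
  obtain ⟨D, hDD⟩ : ∃ D : ℤ, D = ((n : ℤ) - 1) - 4 * ((n : ℤ) * k - m) := ⟨_, rfl⟩
  have hDr : (D : ℝ) = (n - 1) - 4 * (n * k - m) := by
    rw [hDD]
    push_cast
    ring
  have hQ : |b - n * a| ≤ 2 * n * (C0 / x ^ 3) := by
    have h3 : |b - n * a| ≤ |b| + |n * a| := abs_sub _ _
    rw [abs_mul, abs_of_pos hn0] at h3
    have h4 : n * |a| ≤ n * (C0 / x ^ 3) := mul_le_mul_of_nonneg_left h1 hn0.le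
    have h5 : C0 / x ^ 3 ≤ n * (C0 / x ^ 3) := by
      have : 0 ≤ C0 / x ^ 3 := by positivity
      nlinarith
    linarith
  -- multiplied by `8 x`
  have hE : n - 1 / n - 2 * Real.pi * x * D = 8 * x * (b - n * a) := by
    rw [ha, hb, hDr]
    field_simp
    ring
  have hE' : |n - 1 / n - 2 * Real.pi * x * D| ≤ 16 * C0 * n / x ^ 2 := by
    rw [hE, abs_mul, abs_of_pos (by positivity : (0 : ℝ) < 8 * x)]
    refine (mul_le_mul_of_nonneg_left hQ (by positivity)).trans (le_of_eq ?_)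
    field_simp
    ring
  have hin : 1 / (n : ℝ) ≤ n / 9 := by
    rw [div_le_div_iff₀ hn0 (by norm_num)]
    nlinarith
  have hin0 : 0 < 1 / (n : ℝ) := by positivity
  have hx2 : 0 < x ^ 2 := by positivity
  have hE1 := abs_le.1 hE'
  have hs1 : 16 * C0 * n / x ^ 2 < 8 / 9 * n := by
    rw [div_lt_iff₀ hx2]
    nlinarith
  have hDpos : 0 < D := by
    have h3 : 0 < 2 * Real.pi * x * D := by linarith [hE1.2]
    have h4 : (0 : ℝ) < D := by
      by_contra h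
      push Not at h
      have : 2 * Real.pi * x * D ≤ 0 := mul_nonpos_of_nonneg_of_nonpos (by positivity) h
      linarith
    exact_mod_cast h4
  have hDe : Even D := by
    rw [hDD]
    obtain ⟨r, hr⟩ := hn
    refine ⟨(r : ℤ) - 2 * ((n : ℤ) * k - m), ?_⟩
    rw [hr]
    push_cast
    ring
  obtain ⟨j, hj⟩ := hDe
  have hj1 : 1 ≤ j := by omega
  have hjr : (1 : ℝ) ≤ j := by exact_mod_cast hj1
  have hDj : (D : ℝ) = 2 * j := by
    rw [hj]
    push_cast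
    ring
  rw [hDj] at hE1
  have hs2 : 16 * C0 * n / x ^ 2 ≤ 16 * C0 * C / x := by
    rw [div_le_div_iff₀ hx2 hx]
    have : 16 * C0 * n * x ≤ 16 * C0 * (C * x) * x := by
      have h3 : 16 * C0 * n ≤ 16 * C0 * (C * x) := mul_le_mul_of_nonneg_left hnx (by positivity)
      exact mul_le_mul_of_nonneg_right h3 hx.le
    nlinarith
  -- `j ≤ J`
  have hjJ : (j : ℝ) ≤ J := by
    have h3 : 4 * Real.pi * x * j ≤ C * x + 16 * C0 * C / x := by
      have : 2 * Real.pi * x * (2 * (j : ℝ)) = 4 * Real.pi * x * j := by ring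
      linarith [hE1.1]
    have h4 : 16 * C0 * C / x ≤ 4 * x := by
      rw [div_le_iff₀ hx]
      nlinarith
    have h5 : 4 * Real.pi * x * j ≤ 4 * Real.pi * x * J := by
      have h6 : 4 * Real.pi * x * J = C * x + 4 * Real.pi * x := by
        rw [hJ]
        field_simp
      rw [h6]
      nlinarith
    exact le_of_mul_le_mul_left h5 (by positivity)
  -- `x` against `k`
  have hxk : |4 * Real.pi * x - (4 * Real.pi ^ 2 * k - Real.pi ^ 2)| ≤
      (Real.pi / 2 + 4 * Real.pi * C0) / x := by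
    have h3 : 4 * Real.pi * x - (4 * Real.pi ^ 2 * k - Real.pi ^ 2) =
        4 * Real.pi * a + Real.pi / (2 * x) := by
      rw [ha]
      field_simp
      ring
    rw [h3]
    have h4 : |4 * Real.pi * a + Real.pi / (2 * x)| ≤ |4 * Real.pi * a| + |Real.pi / (2 * x)| :=
      abs_add_le _ _
    rw [abs_mul, abs_of_pos (by positivity : (0 : ℝ) < 4 * Real.pi),
      abs_of_pos (by positivity : (0 : ℝ) < Real.pi / (2 * x))] at h4
    have h5 : 4 * Real.pi * |a| ≤ 4 * Real.pi * (C0 / x) := by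
      refine mul_le_mul_of_nonneg_left (h1.trans ?_) (by positivity)
      refine div_le_div_of_nonneg_left hC0.le hx ?_
      nlinarith [mul_pos hx hx, sq_nonneg (x - 1)]
    refine h4.trans ((add_le_add_left h5 _).trans (le_of_eq ?_))
    field_simp
    ring
  obtain ⟨T, hT⟩ : ∃ T : ℝ, T = 4 * Real.pi ^ 2 * k - Real.pi ^ 2 := ⟨_, rfl⟩
  rw [← hT] at hxk he
  have hj0 : (0 : ℝ) < j := by linarith
  have hjx : |(j : ℝ) * (4 * Real.pi * x - T)| ≤ J * ((Real.pi / 2 + 4 * Real.pi * C0) / x) := by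
    rw [abs_mul, abs_of_pos hj0]
    exact mul_le_mul hjJ hxk (abs_nonneg _) (by linarith)
  have hje : |(j : ℝ) * (T - 2 * e)| ≤ 1 / 8 := by
    rw [abs_mul, abs_of_pos hj0]
    have h3 : (j : ℝ) * |T - 2 * e| ≤ J * (1 / (8 * J)) :=
      mul_le_mul hjJ he (abs_nonneg _) (by linarith)
    refine h3.trans (le_of_eq ?_)
    have : J ≠ 0 := by linarith
    field_simp
  have hsm : 16 * C0 * C / x + J * ((Real.pi / 2 + 4 * Real.pi * C0) / x) ≤ 1 / 8 := by
    have : 16 * C0 * C / x + J * ((Real.pi / 2 + 4 * Real.pi * C0) / x) =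
        (16 * C0 * C + J * (Real.pi / 2 + 4 * Real.pi * C0)) / x := by ring
    rw [this, div_le_iff₀ hx]
    linarith
  have hsm1 : 0 ≤ J * ((Real.pi / 2 + 4 * Real.pi * C0) / x) := by positivity
  have hsm2 : 0 ≤ 16 * C0 * C / x := by positivity
  have hn8 : (8 : ℝ) ≤ n := by
    have h3 : 12 ≤ 2 * Real.pi * x * (2 * j) := by
      have h4 : 12 ≤ 4 * Real.pi * x := by nlinarith
      have h5 : 2 * Real.pi * x * (2 * (j : ℝ)) = 4 * Real.pi * x * j := by ring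
      rw [h5]
      nlinarith
    linarith [hE1.1]
  have hn8' : 1 / (n : ℝ) ≤ 1 / 8 := one_div_le_one_div_of_le (by norm_num) hn8
  have hfin : |(n : ℝ) - 2 * e * j| < 1 := by
    have h3 := abs_le.1 hjx
    have h4 := abs_le.1 hje
    have h5 : (n : ℝ) - 2 * e * j = (n - 1 / n - 2 * Real.pi * x * (2 * j)) + 1 / n +
        (j : ℝ) * (4 * Real.pi * x - T) + (j : ℝ) * (T - 2 * e) := by ring
    rw [h5, abs_lt]
    constructor
    · linarith [hE1.1, h3.1, h4.1]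
    · linarith [hE1.2, h3.2, h4.2]
  have hz : |(n : ℤ) - 2 * e * j| < 1 := by
    have : (((|(n : ℤ) - 2 * e * j| : ℤ)) : ℝ) < ((1 : ℤ) : ℝ) := by
      rw [Int.cast_abs, Int.cast_one]
      push_cast
      exact hfin
    exact Int.cast_lt.1 this
  have hz0 : (n : ℤ) - 2 * e * j = 0 := Int.abs_lt_one_iff.1 hz
  obtain ⟨r, hr⟩ := hn
  have h6 : (2 : ℤ) ∣ n := ⟨e * j, by linarith⟩
  omega

/-- **NRX** -/
theorem nrx (zas : ZasStmt) (dio : DioStmt) : NrxStmt := by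
  intro C X
  obtain ⟨C0, X0, hC0, hX0, hz, hex⟩ := zas
  obtain ⟨C', hC'⟩ : ∃ C' : ℝ, C' = max C 1 := ⟨_, rfl⟩
  have hC1 : 1 ≤ C' := by rw [hC']; exact le_max_right _ _
  have hCC : C ≤ C' := by rw [hC']; exact le_max_left _ _
  have hpi := Real.pi_pos
  obtain ⟨J, hJ⟩ : ∃ J : ℝ, J = C' / (4 * Real.pi) + 1 := ⟨_, rfl⟩
  have hJ1 : 1 ≤ J := by
    rw [hJ]
    have : 0 ≤ C' / (4 * Real.pi) := by positivity
    linarith
  obtain ⟨N, hN⟩ := exists_nat_ge (|X| + X0 + 18 * C0 + 4 * C0 * C' +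
    8 * (16 * C0 * C' + J * (Real.pi / 2 + 4 * Real.pi * C0)) + 1)
  have hq1 : 0 ≤ 8 * (16 * C0 * C' + J * (Real.pi / 2 + 4 * Real.pi * C0)) := by positivity
  have hq2 : 0 ≤ 4 * C0 * C' := by positivity
  have hq3 := abs_nonneg X
  have hq4 := le_abs_self X
  have hq5 : (0 : ℝ) ≤ X0 := Nat.cast_nonneg _
  obtain ⟨k, e, hk, he⟩ := dio (1 / (8 * J)) N (by positivity)
  have hkr : (N : ℝ) ≤ k := by exact_mod_cast hk
  have hX0k : X0 ≤ k := by
    have : (X0 : ℝ) ≤ k := by linarith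
    exact_mod_cast this
  obtain ⟨x, hkx, hx0, hxz⟩ := hex k hX0k
  have hx1 : 1 ≤ x := by linarith
  refine ⟨x, by linarith, hx1, hx0, fun n hn hn3 hnx h0 => ?_⟩
  have hnr : (3 : ℝ) ≤ n := by exact_mod_cast hn3
  have hnx' : (X0 : ℝ) ≤ n * x := by nlinarith
  obtain ⟨m, hm⟩ := hz (n * x) hnx' h0
  have hsq : x ≤ x ^ 2 := by nlinarith
  refine nrx_core C0 C' x k n m e hC0 hC1 hx1 (by linarith) (by linarith) ?_ ?_ hxz hn hn3
    (hnx.trans (mul_le_mul_of_nonneg_right hCC (by linarith))) hm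
  · rw [← hJ]
    linarith
  · rw [← hJ]
    exact he

end Pool.Agent.BEJ.H36
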